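import Pool.Agent.H86.BC2.Free
import Pool.Graph.R_pool_sql_team_seeded_620a6dc7.H694.TR.Main

/-!
# Matrices of degree two over noncommutative rings: groups with a homomorphism that is injective on the
constants
-/

set_option autoImplicit false

namespace Pool.Agent.H86.FJN

open Pool.Agent.Y110.FJ (ClosedE)
open Pool.Agent.H694.TR (Sol act_tree TreeAct)
open Pool.Agent.R684.FP (FbC)
open Pool.Agent.H34.PT (Deg Vt cg smul_inl smul_inr)
open Pool.Agent.H86.BC2
open Q30.FJ (cmat cmat_apply upper el el_val el_add)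
open Matrix

variable {C : ∀ (G : Type) [Group G], Prop}

theorem cmat_comp {R S T : Type} [Ring R] [Ring S] [Ring T] (f : R →+* S) (e : S →+* T)
    (g : GL (Fin 2) R) : cmat e (cmat f g) = cmat (e.comp f) g := rfl

theorem cmat_inj {R S : Type} [Ring R] [Ring S] {f : R →+* S} (hf : Function.Injective f) :
    Function.Injective (cmat f) := by
  intro g h hgh
  have h1 : (cmat f g).1 = (cmat f h).1 := by rw [hgh]
  apply Units.ext
  ext i j
  exact hf (congrFun (congrFun h1 i) j)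

theorem comm_el {R : Type} [Ring R] {e f : GL (Fin 2) R} (he : e.1 1 0 = 0) (hf : f.1 1 0 = 0)
    (he0 : e.1 0 0 = 1) (he1 : e.1 1 1 = 1) (hf0 : f.1 0 0 = 1) (hf1 : f.1 1 1 = 1) :
    e * f = f * e := by
  have h1 : e = el (e.1 0 1) := by
    apply Units.ext
    rw [el_val]
    ext i j
    fin_cases i <;> fin_cases j <;> simp [he, he0, he1]
  have h2 : f = el (f.1 0 1) := by
    apply Units.ext
    rw [el_val]
    ext i j
    fin_cases i <;> fin_cases j <;> simp [hf, hf0, hf1]
  rw [h1, h2, ← el_add, ← el_add, add_comm]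

variable {k R : Type} [DivisionRing k] [Ring R] [Nontrivial R] [NoZeroDivisors R] {c : k →+* R}
  {d : R → ℕ}

theorem aug (hC : ClosedE C) (hF : FbC C) (hS : Sol C) (D : Dg c d) {S : Type} [Ring S]
    [Nontrivial S] (ε : R →+* S) {G H : Type} [Group G] [Group H] (α : G →* GL (Fin 2) R)
    (hα : ∀ g, α g ∈ Gen c) (β : G →* H) (hH : C H) (hi : ∀ g, α g = 1 → β g = 1 → g = 1)
    (he : ∀ g, β g = 1 → cmat ε (α g) = 1) : C G := by
  let γ : G →* Gen c := α.codRestrict (Gen c) hα
  have hT := (deg D).treeAct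
  let _ : MulAction G (Vt ((cmat c).range.subgroupOf (Gen c)) ((upper R).subgroupOf (Gen c))) :=
    MulAction.compHom _ γ
  have hA : TreeAct G (Vt ((cmat c).range.subgroupOf (Gen c)) ((upper R).subgroupOf (Gen c)))
      (cg ((cmat c).range.subgroupOf (Gen c)) ((upper R).subgroupOf (Gen c))) :=
    ⟨hT.isTree, fun g => hT.adj (γ g), fun g => hT.noInv (γ g)⟩
  have hεc : Function.Injective (ε.comp c) := (ε.comp c).injective
  refine act_tree hC hF hS hA β hH ?_
  have key : ∀ x y : G, β x = 1 → β y = 1 → α x * α y = α y * α x → x * y = y * x := by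
    intro x y hx hy h
    have h1 : x * y * (y * x)⁻¹ = 1 := by
      apply hi
      · rw [map_mul, map_inv, map_mul, map_mul, h, mul_inv_cancel]
      · rw [map_mul, map_inv, map_mul, map_mul, hx, hy]
        group
    exact mul_inv_eq_one.1 h1
  have hε1 : ∀ (x : G) (g : GL (Fin 2) R), β x = 1 → cmat ε (g⁻¹ * α x * g) = 1 := by
    intro x g hx
    rw [map_mul, map_mul, he x hx, mul_one, map_inv, inv_mul_cancel]
  rintro (v | v) x y hx hy hβx hβy
  · obtain ⟨g, rfl⟩ := QuotientGroup.mk_surjective v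
    have h1 : ∀ x : G, x • (Sum.inl (g : Gen c ⧸ (cmat c).range.subgroupOf (Gen c)) :
        Vt ((cmat c).range.subgroupOf (Gen c)) ((upper R).subgroupOf (Gen c))) =
        Sum.inl (g : Gen c ⧸ (cmat c).range.subgroupOf (Gen c)) → β x = 1 → α x = 1 := by
      intro x hx hβ
      have h2 : (Sum.inl ((γ x * g : Gen c) : Gen c ⧸ (cmat c).range.subgroupOf (Gen c)) :
        Vt ((cmat c).range.subgroupOf (Gen c)) ((upper R).subgroupOf (Gen c))) =
        Sum.inl (g : Gen c ⧸ (cmat c).range.subgroupOf (Gen c)) := hx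
      have h3 := Sum.inl.inj h2
      rw [eq_comm, QuotientGroup.eq] at h3
      obtain ⟨a, ha⟩ : (g⁻¹ * (γ x * g) : Gen c).1 ∈ (cmat c).range := h3
      have h4 : cmat (ε.comp c) a = 1 := by
        rw [← cmat_comp, ha]
        have h5 := hε1 x g.1 hβ
        rw [mul_assoc] at h5
        exact h5
      have h5 : a = 1 := cmat_inj hεc (h4.trans (map_one _).symm)
      rw [h5, map_one] at ha
      have h6 : (g.1)⁻¹ * (α x * g.1) = 1 := ha.symm
      have h7 : α x = g.1 * ((g.1)⁻¹ * (α x * g.1)) * (g.1)⁻¹ := by group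
      rw [h7, h6, mul_one, mul_inv_cancel]
    apply key x y hβx hβy
    rw [h1 x hx hβx, h1 y hy hβy]
  · obtain ⟨g, rfl⟩ := QuotientGroup.mk_surjective v
    have h1 : ∀ x : G, x • (Sum.inr (g : Gen c ⧸ (upper R).subgroupOf (Gen c)) :
        Vt ((cmat c).range.subgroupOf (Gen c)) ((upper R).subgroupOf (Gen c))) =
        Sum.inr (g : Gen c ⧸ (upper R).subgroupOf (Gen c)) → β x = 1 →
        ((g.1)⁻¹ * α x * g.1).1 1 0 = 0 ∧ ((g.1)⁻¹ * α x * g.1).1 0 0 = 1 ∧
          ((g.1)⁻¹ * α x * g.1).1 1 1 = 1 := by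
      intro x hx hβ
      have h2 : (Sum.inr ((γ x * g : Gen c) : Gen c ⧸ (upper R).subgroupOf (Gen c)) :
        Vt ((cmat c).range.subgroupOf (Gen c)) ((upper R).subgroupOf (Gen c))) =
        Sum.inr (g : Gen c ⧸ (upper R).subgroupOf (Gen c)) := hx
      have h3 := Sum.inr.inj h2
      rw [eq_comm, QuotientGroup.eq] at h3
      have h4 : (g.1)⁻¹ * α x * g.1 ∈ upper R := by
        rw [mul_assoc]
        exact h3
      obtain ⟨h5, h6⟩ := diag_unit h4
      obtain ⟨u, hu⟩ := D.mem _ (D.unit h5)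
      obtain ⟨v, hv⟩ := D.mem _ (D.unit h6)
      have h7 : (cmat ε ((g.1)⁻¹ * α x * g.1)).1 = 1 := by
        rw [hε1 x g.1 hβ]
        rfl
      have h8 : ∀ i j, ε (((g.1)⁻¹ * α x * g.1).1 i j) = (1 : Matrix (Fin 2) (Fin 2) S) i j :=
        fun i j => congrFun (congrFun h7 i) j
      refine ⟨h4, ?_, ?_⟩
      · have h9 := h8 0 0
        rw [← hu] at h9
        have h10 : u = 1 := hεc (h9.trans (map_one (ε.comp c)).symm)
        rw [← hu, h10, map_one]
      · have h9 := h8 1 1
        rw [← hv] at h9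
        have h10 : v = 1 := hεc (h9.trans (map_one (ε.comp c)).symm)
        rw [← hv, h10, map_one]
    obtain ⟨a1, a2, a3⟩ := h1 x hx hβx
    obtain ⟨b1, b2, b3⟩ := h1 y hy hβy
    have h2 := comm_el a1 b1 a2 a3 b2 b3
    apply key x y hβx hβy
    have h3 : α x * α y = g.1 * ((g.1)⁻¹ * α x * g.1 * ((g.1)⁻¹ * α y * g.1)) * (g.1)⁻¹ := by group
    have h4 : α y * α x = g.1 * ((g.1)⁻¹ * α y * g.1 * ((g.1)⁻¹ * α x * g.1)) * (g.1)⁻¹ := by group
    rw [h3, h4, h2]

end Pool.Agent.H86.FJN
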