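import Pool.Agent.H86.FJN.Aug
import Pool.Graph.R_pool_sql_team_seeded_35f281b4.K7.H87.FJ2.Rg

/-!
# Finite families of homomorphisms, and congruence subgroups of nilpotent ideals
-/

set_option autoImplicit false

namespace Pool.Agent.H86.FJN

open Pool.Agent.Y110.FJ (ClosedE)
open Pool.Agent.H694.TR (Sol act_tree TreeAct)
open Pool.Agent.R684.FP (FbC)
open Pool.Agent.K7.H87.FJ2 (ext_solv)
open Pool.Agent.H86.BC2
open Q30.FJ (cmat cmat_apply upper el el_val el_add)
open Matrix

/-! ### congruence subgroups -/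

section nil

variable {B : Type} [Ring B]

/-- the elements which are congruent to one -/
def Cg (T : AddSubgroup B) (h : ∀ b x, x ∈ T → b * x ∈ T ∧ x * b ∈ T) : Subgroup Bˣ where
  carrier := {g | g.1 - 1 ∈ T}
  one_mem' := by
    show (1 : B) - 1 ∈ T
    rw [sub_self]
    exact T.zero_mem
  mul_mem' := by
    intro g g' hg hg'
    show g.1 * g'.1 - 1 ∈ T
    have h1 : g.1 * g'.1 - 1 = (g.1 - 1) * g'.1 + (g'.1 - 1) := by rw [sub_mul, one_mul]; abel
    rw [h1]
    exact T.add_mem (h _ _ hg).2 hg'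
  inv_mem' := by
    intro g hg
    show (↑g⁻¹ : B) - 1 ∈ T
    have h1 : (↑g⁻¹ : B) - 1 = -((↑g⁻¹ : B) * (g.1 - 1)) := by
      rw [mul_sub, mul_one, Units.inv_mul]
      abel
    rw [h1]
    exact T.neg_mem (h _ _ hg).1

theorem mem_Cg {T : AddSubgroup B} {h : ∀ b x, x ∈ T → b * x ∈ T ∧ x * b ∈ T} {g : Bˣ} :
    g ∈ Cg T h ↔ g.1 - 1 ∈ T := Iff.rfl

theorem nil_solv : ∀ (m : ℕ) (J : ℕ → AddSubgroup B)
    (h : ∀ j b x, x ∈ J j → b * x ∈ J j ∧ x * b ∈ J j),
    (∀ j x y, x ∈ J j → y ∈ J j → x * y ∈ J (j + 1)) → J m = ⊥ →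
      Group.IsSolvable (Cg (J 0) (h 0)) := by
  intro m
  induction m with
  | zero =>
    intro J h _ hm
    refine Group.isSolvable_of_comm fun a b => ?_
    have h1 : ∀ a : Cg (J 0) (h 0), a = 1 := by
      intro a
      have h2 : a.1.1 - 1 ∈ J 0 := a.2
      have h3 : a.1.1 - 1 = 0 := AddSubgroup.mem_bot.1 (hm.le h2)
      exact Subtype.ext (Units.ext (sub_eq_zero.1 h3))
    rw [h1 a, h1 b]
  | succ m ih =>
    intro J h hmul hm
    have hs := ih (fun j => J (j + 1)) (fun j => h (j + 1)) (fun j => hmul (j + 1)) hm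
    let N : Subgroup (Cg (J 0) (h 0)) := (Cg (J 1) (h 1)).comap (Subgroup.subtype _)
    have hN : ∀ a b : Cg (J 0) (h 0), a * b * a⁻¹ * b⁻¹ ∈ N := by
      intro a b
      show (a.1 * b.1 * a.1⁻¹ * b.1⁻¹ : Bˣ).1 - 1 ∈ J 1
      have ha : a.1.1 - 1 ∈ J 0 := a.2
      have hb : b.1.1 - 1 ∈ J 0 := b.2
      have h1 : (a.1 * b.1 * a.1⁻¹ * b.1⁻¹ : Bˣ).1 - 1 =
          ((a.1.1 - 1) * (b.1.1 - 1) - (b.1.1 - 1) * (a.1.1 - 1)) * ((↑a.1⁻¹ : B) * (↑b.1⁻¹ : B)) := by
        have h2 : (a.1.1 - 1) * (b.1.1 - 1) - (b.1.1 - 1) * (a.1.1 - 1) =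
            a.1.1 * b.1.1 - b.1.1 * a.1.1 := by
          rw [sub_mul, mul_sub, mul_sub, sub_mul, mul_sub, mul_sub]
          simp only [mul_one, one_mul]
          abel
        rw [h2, sub_mul, Units.val_mul, Units.val_mul, Units.val_mul]
        congr 1
        · simp only [mul_assoc]
        · have h3 : b.1.1 * a.1.1 * ((↑a.1⁻¹ : B) * (↑b.1⁻¹ : B)) =
              b.1.1 * (a.1.1 * (↑a.1⁻¹ : B)) * (↑b.1⁻¹ : B) := by simp only [mul_assoc]
          rw [h3, Units.mul_inv, mul_one, Units.mul_inv]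
      rw [h1]
      exact (h 1 _ _ ((J 1).sub_mem (hmul 0 _ _ ha hb) (hmul 0 _ _ hb ha))).2
    have hNn : N.Normal := by
      constructor
      intro n hn g
      have h1 : g * n * g⁻¹ = g * n * g⁻¹ * n⁻¹ * n := by group
      rw [h1]
      exact N.mul_mem (hN g n) hn
    have hsN : Group.IsSolvable N := by
      refine Group.isSolvable_of_isSolvable_injective (f := (MonoidHom.mk' (fun x : N =>
        (⟨x.1.1, x.2⟩ : Cg (J 1) (h 1))) fun _ _ => rfl)) ?_
      intro x y hxy
      exact Subtype.ext (Subtype.ext (congrArg (fun z : Cg (J 1) (h 1) => (z : Bˣ)) hxy))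
    have hsQ : Group.IsSolvable (Cg (J 0) (h 0) ⧸ N) := by
      refine Group.isSolvable_of_comm fun a b => ?_
      obtain ⟨a, rfl⟩ := QuotientGroup.mk_surjective a
      obtain ⟨b, rfl⟩ := QuotientGroup.mk_surjective b
      rw [← QuotientGroup.mk_mul, ← QuotientGroup.mk_mul, QuotientGroup.eq]
      have h1 : (a * b)⁻¹ * (b * a) = b⁻¹ * a⁻¹ * b⁻¹⁻¹ * a⁻¹⁻¹ := by group
      rw [h1]
      exact hN _ _
    exact Group.isSolvable_of_ker_le_range N.subtype (QuotientGroup.mk' N)
      (by rw [QuotientGroup.ker_mk', Subgroup.range_subtype])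

end nil

/-! ### powers of an ideal -/

section pow

variable {A : Type} [Ring A] (I : Set A) (hI : ∀ a x, x ∈ I → a * x ∈ I ∧ x * a ∈ I)

/-- the additive group generated by the products of `n` elements of `I` -/
def LL (n : ℕ) : AddSubgroup A :=
  AddSubgroup.closure {x | ∃ l : List A, l.length = n ∧ (∀ a ∈ l, a ∈ I) ∧ l.prod = x}

include hI in
theorem LL_two {n : ℕ} (hn : 0 < n) (b x : A) (hx : x ∈ LL I n) : b * x ∈ LL I n ∧ x * b ∈ LL I n := by
  induction hx using AddSubgroup.closure_induction with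
  | mem x hx =>
    obtain ⟨l, hl, hlI, rfl⟩ := hx
    constructor
    · apply AddSubgroup.subset_closure
      cases l with
      | nil => simp at hl; omega
      | cons a l =>
        refine ⟨(b * a) :: l, by simpa using hl, ?_, by simp [mul_assoc]⟩
        intro y hy
        rcases List.mem_cons.1 hy with rfl | hy
        · exact (hI _ _ (hlI _ (List.mem_cons_self ..))).1
        · exact hlI _ (List.mem_cons_of_mem _ hy)
    · apply AddSubgroup.subset_closure
      rcases List.eq_nil_or_concat l with rfl | ⟨l, a, rfl⟩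
      · simp at hl; omega
      · rw [List.concat_eq_append] at hlI hl ⊢
        refine ⟨l ++ [a * b], by simpa using hl, ?_, by simp [mul_assoc]⟩
        intro y hy
        rcases List.mem_append.1 hy with hy | hy
        · exact hlI _ (List.mem_append_left _ hy)
        · rw [List.mem_singleton] at hy
          subst hy
          exact (hI _ _ (hlI a (List.mem_append_right _ (List.mem_singleton_self a)))).2
  | zero =>
    rw [mul_zero, zero_mul]
    exact ⟨(LL I n).zero_mem, (LL I n).zero_mem⟩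
  | add x y _ _ hx hy =>
    rw [mul_add, add_mul]
    exact ⟨(LL I n).add_mem hx.1 hy.1, (LL I n).add_mem hx.2 hy.2⟩
  | neg x _ hx =>
    rw [mul_neg, neg_mul]
    exact ⟨(LL I n).neg_mem hx.1, (LL I n).neg_mem hx.2⟩

theorem LL_mul {n m : ℕ} {x y : A} (hx : x ∈ LL I n) (hy : y ∈ LL I m) : x * y ∈ LL I (n + m) := by
  induction hx using AddSubgroup.closure_induction with
  | mem x hx =>
    obtain ⟨l, hl, hlI, rfl⟩ := hx
    induction hy using AddSubgroup.closure_induction with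
    | mem y hy =>
      obtain ⟨l', hl', hlI', rfl⟩ := hy
      apply AddSubgroup.subset_closure
      refine ⟨l ++ l', by rw [List.length_append, hl, hl'], ?_, List.prod_append⟩
      intro z hz
      rcases List.mem_append.1 hz with hz | hz
      · exact hlI _ hz
      · exact hlI' _ hz
    | zero => rw [mul_zero]; exact AddSubgroup.zero_mem _
    | add y z _ _ hy hz => rw [mul_add]; exact AddSubgroup.add_mem _ hy hz
    | neg y _ hy => rw [mul_neg]; exact AddSubgroup.neg_mem _ hy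
  | zero => rw [zero_mul]; exact AddSubgroup.zero_mem _
  | add x z _ _ hx hz => rw [add_mul]; exact AddSubgroup.add_mem _ hx hz
  | neg x _ hx => rw [neg_mul]; exact AddSubgroup.neg_mem _ hx

theorem LL_bot {m n : ℕ} (h : ∀ l : List A, l.length = m → (∀ a ∈ l, a ∈ I) → l.prod = 0)
    (hmn : m ≤ n) : LL I n = ⊥ := by
  rw [eq_bot_iff]
  unfold LL
  rw [AddSubgroup.closure_le]
  rintro x ⟨l, hl, hlI, rfl⟩
  show l.prod ∈ (⊥ : AddSubgroup A)
  rw [AddSubgroup.mem_bot, ← List.take_append_drop m l, List.prod_append, h, zero_mul]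
  · rw [List.length_take]
    omega
  · exact fun a ha => hlI a (List.mem_of_mem_take ha)

/-- the congruence subgroup of a nilpotent ideal is solvable -/
theorem solv_nil {m : ℕ} (hI' : ∀ a x, x ∈ I → a * x ∈ I ∧ x * a ∈ I)
    (h : ∀ l : List A, l.length = m → (∀ a ∈ l, a ∈ I) → l.prod = 0)
    (K : Subgroup (GL (Fin 2) A)) (hK : ∀ g ∈ K, ∀ i j, g.1 i j -
      (1 : Matrix (Fin 2) (Fin 2) A) i j ∈ I) : Group.IsSolvable K := by
  let J : ℕ → AddSubgroup (Matrix (Fin 2) (Fin 2) A) := fun n =>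
    { carrier := {M | ∀ i j, M i j ∈ LL I (2 ^ n)}
      zero_mem' := fun _ _ => AddSubgroup.zero_mem _
      add_mem' := fun hx hy i j => AddSubgroup.add_mem _ (hx i j) (hy i j)
      neg_mem' := fun hx i j => AddSubgroup.neg_mem _ (hx i j) }
  have h1 : ∀ j b x, x ∈ J j → b * x ∈ J j ∧ x * b ∈ J j := by
    intro j b x hx
    constructor
    · intro i l
      rw [Matrix.mul_apply]
      exact AddSubgroup.sum_mem _ fun s _ => (LL_two I hI' (by positivity) _ _ (hx s l)).1
    · intro i l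
      rw [Matrix.mul_apply]
      exact AddSubgroup.sum_mem _ fun s _ => (LL_two I hI' (by positivity) _ _ (hx i s)).2
  have h2 : ∀ j x y, x ∈ J j → y ∈ J j → x * y ∈ J (j + 1) := by
    intro j x y hx hy i l
    rw [Matrix.mul_apply, pow_succ, mul_two]
    exact AddSubgroup.sum_mem _ fun s _ => LL_mul I (hx i s) (hy s l)
  have h3 : J m = ⊥ := by
    rw [eq_bot_iff]
    intro x hx
    rw [AddSubgroup.mem_bot]
    ext i l
    have h4 := hx i l
    rw [LL_bot I h (Nat.lt_two_pow_self).le, AddSubgroup.mem_bot] at h4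
    exact h4
  have hs := nil_solv m J h1 h2 h3
  refine Group.isSolvable_of_isSolvable_injective (f := (MonoidHom.mk' (fun x : K =>
    (⟨x.1, fun i j => AddSubgroup.subset_closure ⟨[x.1.1 i j - (1 : Matrix (Fin 2) (Fin 2) A) i j],
      rfl, ?_, ?_⟩⟩ : Cg (J 0) (h1 0))) fun _ _ => rfl)) ?_
  · intro a ha
    rw [List.mem_singleton.1 ha]
    exact hK x.1 x.2 i j
  · exact List.prod_singleton
  · intro x y hxy
    exact Subtype.ext (congrArg (fun z : Cg (J 0) (h1 0) => (z : (Matrix (Fin 2) (Fin 2) A)ˣ)) hxy)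

end pow

/-! ### families -/

section fam

variable {C : ∀ (G : Type) [Group G], Prop} {ι : Type} {k R S : ι → Type}
  [∀ i, DivisionRing (k i)] [∀ i, Ring (R i)] [∀ i, Nontrivial (R i)] [∀ i, NoZeroDivisors (R i)]
  [∀ i, Ring (S i)] [∀ i, Nontrivial (S i)] {c : ∀ i, k i →+* R i} {d : ∀ i, R i → ℕ}
  {G H : Type} [Group G] [Group H]

/-- the common kernel -/
def NN (α : ∀ i, G →* GL (Fin 2) (R i)) (β : G →* H) (s : Set ι) : Subgroup G where
  carrier := {g | β g = 1 ∧ ∀ i ∈ s, α i g = 1}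
  one_mem' := ⟨map_one _, fun _ _ => map_one _⟩
  mul_mem' := by
    rintro g g' ⟨h1, h2⟩ ⟨h3, h4⟩
    refine ⟨by rw [map_mul, h1, h3, mul_one], fun i hi => by rw [map_mul, h2 i hi, h4 i hi, mul_one]⟩
  inv_mem' := by
    rintro g ⟨h1, h2⟩
    refine ⟨by rw [map_inv, h1, inv_one], fun i hi => by rw [map_inv, h2 i hi, inv_one]⟩

instance (α : ∀ i, G →* GL (Fin 2) (R i)) (β : G →* H) (s : Set ι) : (NN α β s).Normal where
  conj_mem := by
    rintro g ⟨h1, h2⟩ x
    refine ⟨by rw [map_mul, map_mul, h1, mul_one, map_inv, mul_inv_cancel], fun i hi => by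
      rw [map_mul, map_mul, h2 i hi, mul_one, map_inv, mul_inv_cancel]⟩

theorem mem_NN {α : ∀ i, G →* GL (Fin 2) (R i)} {β : G →* H} {s : Set ι} {g : G} :
    g ∈ NN α β s ↔ β g = 1 ∧ ∀ i ∈ s, α i g = 1 := Iff.rfl

theorem fam_quot (hC : ClosedE C) (hF : FbC C) (hS : Sol C) (D : ∀ i, Dg (c i) (d i))
    (ε : ∀ i, R i →+* S i) (α : ∀ i, G →* GL (Fin 2) (R i)) (hα : ∀ i g, α i g ∈ Gen (c i))
    (β : G →* H) (hH : C H) (he : ∀ i g, β g = 1 → cmat (ε i) (α i g) = 1) (s : Finset ι) :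
    C (G ⧸ NN α β s) := by
  classical
  induction s using Finset.induction_on with
  | empty =>
    refine hC.base.of_injective _ _ (QuotientGroup.lift (NN α β (∅ : Finset ι)) β
      (fun g hg => hg.1)) ?_ hH
    rw [← MonoidHom.ker_eq_bot_iff, eq_bot_iff]
    intro x hx
    obtain ⟨g, rfl⟩ := QuotientGroup.mk_surjective x
    have h1 : β g = 1 := hx
    rw [Subgroup.mem_bot, QuotientGroup.eq_one_iff]
    exact ⟨h1, fun i hi => absurd hi (by simp)⟩
  | insert j s hj ih =>
    let N' := NN α β (insert j s : Finset ι)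
    let α' : G ⧸ N' →* GL (Fin 2) (R j) := QuotientGroup.lift N' (α j) fun g hg =>
      hg.2 j (by simp)
    let β' : G ⧸ N' →* G ⧸ NN α β s := QuotientGroup.map N' (NN α β s) (MonoidHom.id G)
      fun g hg => ⟨hg.1, fun i hi => hg.2 i (by simp [Finset.mem_coe.1 hi])⟩
    refine aug hC hF hS (D j) (ε j) α' ?_ β' ih ?_ ?_
    · intro x
      obtain ⟨g, rfl⟩ := QuotientGroup.mk_surjective x
      exact hα j g
    · intro x hx hx'
      obtain ⟨g, rfl⟩ := QuotientGroup.mk_surjective x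
      have h1 : α j g = 1 := hx
      have h2 : (g : G ⧸ NN α β s) = 1 := hx'
      rw [QuotientGroup.eq_one_iff] at h2 ⊢
      refine ⟨h2.1, fun i hi => ?_⟩
      rcases Finset.mem_insert.1 (Finset.mem_coe.1 hi) with rfl | hi
      · exact h1
      · exact h2.2 i hi
    · intro x hx
      obtain ⟨g, rfl⟩ := QuotientGroup.mk_surjective x
      have h2 : (g : G ⧸ NN α β s) = 1 := hx
      rw [QuotientGroup.eq_one_iff] at h2
      exact he j g h2.1

/-- **groups with a finite family of homomorphisms** -/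
theorem fam [Finite ι] (hC : ClosedE C) (hF : FbC C) (hS : Sol C) (D : ∀ i, Dg (c i) (d i))
    (ε : ∀ i, R i →+* S i) (α : ∀ i, G →* GL (Fin 2) (R i)) (hα : ∀ i g, α i g ∈ Gen (c i))
    (β : G →* H) (hH : C H) (he : ∀ i g, β g = 1 → cmat (ε i) (α i g) = 1)
    (hs : Group.IsSolvable (NN α β Set.univ)) : C G := by
  classical
  have := Fintype.ofFinite ι
  have h1 := fam_quot hC hF hS D ε α hα β hH he Finset.univ
  rw [Finset.coe_univ] at h1
  exact ext_solv hC hS _ hs h1

end fam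

end Pool.Agent.H86.FJN
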