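import Pool.Agent.H86.FJN.Graded

/-!
# Noncommutative graded rings
-/

set_option autoImplicit false

namespace Pool.Agent.H86.FJN

open Pool.Agent.Y110.FJ (ClosedE)
open Pool.Agent.H694.TR (Sol)
open Pool.Agent.R684.FP (FbC)
open Pool.Agent.H86.BC2
open Q30.FJ (cmat cmat_apply)
open Matrix Polynomial

variable {C : ∀ (G : Type) [Group G], Prop}

section graded

variable {A : Type} [Ring A] (𝒜 : ℕ → AddSubgroup A) [GradedRing 𝒜]

/-- `a ↦ ∑ aₙ tⁿ` on the direct sum -/
noncomputable def tau0 : (DirectSum ℕ fun n => 𝒜 n) →+* A[X] :=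
  DirectSum.toSemiring (fun n => ((monomial n : A →ₗ[A] A[X]).toAddMonoidHom.comp (𝒜 n).subtype))
    (by
      show monomial 0 (((1 : 𝒜 0) : A)) = 1
      rw [SetLike.GradeZero.coe_one]
      rfl)
    (by
      intro i j a b
      show monomial (i + j) ((a : A) * (b : A)) = monomial i (a : A) * monomial j (b : A)
      rw [monomial_mul_monomial])

/-- `a ↦ ∑ aₙ tⁿ` -/
noncomputable def tau : A →+* A[X] :=
  (tau0 𝒜).comp (DirectSum.decomposeRingEquiv 𝒜).toRingHom

theorem tau_coe {n : ℕ} (a : 𝒜 n) : tau 𝒜 (a : A) = monomial n (a : A) := by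
  show tau0 𝒜 (DirectSum.decompose 𝒜 (a : A)) = _
  rw [DirectSum.decompose_coe, tau0, DirectSum.toSemiring_of]
  rfl

theorem tau_coeff (a : A) (m : ℕ) : (tau 𝒜 a).coeff m = (DirectSum.decompose 𝒜 a m : A) := by
  induction a using DirectSum.Decomposition.inductionOn 𝒜 with
  | zero => simp
  | @homogeneous i a =>
    rw [tau_coe, coeff_monomial]
    split_ifs with h
    · subst h
      rw [DirectSum.decompose_coe, DirectSum.of_eq_same]
    · rw [DirectSum.decompose_of_mem_ne 𝒜 a.2 h]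
  | add a b ha hb =>
    rw [map_add, coeff_add, ha, hb, DirectSum.decompose_add, DirectSum.add_apply,
      AddSubgroup.coe_add]

/-- the elements whose homogeneous components are in `S` -/
def HS (S : Subring A) : Subring A where
  carrier := {a | ∀ n, (tau 𝒜 a).coeff n ∈ S}
  zero_mem' := fun n => by rw [map_zero, coeff_zero]; exact S.zero_mem
  one_mem' := fun n => by
    rw [map_one, coeff_one]
    split_ifs
    · exact S.one_mem
    · exact S.zero_mem
  add_mem' := fun ha hb n => by rw [map_add, coeff_add]; exact S.add_mem (ha n) (hb n)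
  neg_mem' := fun ha n => by rw [map_neg, coeff_neg]; exact S.neg_mem (ha n)
  mul_mem' := fun ha hb n => by
    rw [map_mul, coeff_mul]
    exact S.sum_mem fun x _ => S.mul_mem (ha _) (hb _)

theorem mem_HS {S : Subring A} {a : A} : a ∈ HS 𝒜 S ↔ ∀ n, (tau 𝒜 a).coeff n ∈ S := Iff.rfl

theorem sum_coeff (a : A) : ∑ n ∈ (tau 𝒜 a).support, (tau 𝒜 a).coeff n = a := by
  classical
  conv_rhs => rw [← DirectSum.sum_support_decompose 𝒜 a]
  have h1 : (tau 𝒜 a).support = (DirectSum.decompose 𝒜 a).support := by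
    ext n
    rw [mem_support_iff, DFinsupp.mem_support_iff, tau_coeff]
    rw [Ne, Ne, ZeroMemClass.coe_eq_zero]
  rw [h1]
  exact Finset.sum_congr rfl fun n _ => tau_coeff 𝒜 a n

theorem HS_le (S : Subring A) : HS 𝒜 S ≤ S := by
  intro a ha
  rw [← sum_coeff 𝒜 a]
  exact S.sum_mem fun n _ => ha n

theorem coeffs_le {S : Subring A} (a : HS 𝒜 S) : (↑(tau 𝒜 (a : A)).coeffs : Set A) ⊆ S := by
  intro x hx
  obtain ⟨n, _, rfl⟩ := mem_coeffs_iff.1 (Finset.mem_coe.1 hx)
  exact a.2 n

/-- `a ↦ ∑ aₙ tⁿ` for the subring -/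
noncomputable def tS (S : Subring A) : HS 𝒜 S →+* S[X] where
  toFun a := (tau 𝒜 (a : A)).toSubring S (coeffs_le 𝒜 a)
  map_one' := by
    apply Polynomial.map_injective S.subtype S.subtype_injective
    rw [map_toSubring, Polynomial.map_one]
    exact map_one _
  map_mul' a b := by
    apply Polynomial.map_injective S.subtype S.subtype_injective
    rw [Polynomial.map_mul, map_toSubring, map_toSubring, map_toSubring]
    exact map_mul _ _ _
  map_zero' := by
    apply Polynomial.map_injective S.subtype S.subtype_injective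
    rw [map_toSubring, Polynomial.map_zero]
    exact map_zero _
  map_add' a b := by
    apply Polynomial.map_injective S.subtype S.subtype_injective
    rw [Polynomial.map_add, map_toSubring, map_toSubring, map_toSubring]
    exact map_add _ _ _

theorem tS_coeff {S : Subring A} (a : HS 𝒜 S) (n : ℕ) :
    (((tS 𝒜 S a).coeff n : S) : A) = (tau 𝒜 (a : A)).coeff n :=
  coeff_toSubring _ _ (coeffs_le 𝒜 a)

theorem fib_HS (hC : ClosedE C) (hF : FbC C) (hS : Sol C) {H : Type} [Group H]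
    (ρ : H →* GL (Fin 2) (𝒜 0)) (hH : C H) (S : Subring A) (hD : DF S) :
    C (FPn ((GradedRing.projZeroRingHom' 𝒜).comp (HS 𝒜 S).subtype) ρ) := by
  obtain ⟨ι, hι, D, hD, φ, m, hm⟩ := hD
  refine fib (k := D) (R := fun i => (D i)[X]) (S := D) hC hF hS
    (c := fun i => (Polynomial.C : D i →+* (D i)[X])) (d := fun i => natDegree)
    (fun i => dgPoly (D i)) (fun i => genPoly (D i))
    (fun i => (constantCoeff : (D i)[X] →+* D i))
    ((GradedRing.projZeroRingHom' 𝒜).comp (HS 𝒜 S).subtype) ρ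
    (fun i => (mapRingHom (φ i)).comp (tS 𝒜 S)) ?_ (m := m) ?_ hH
  · intro i a ha
    have h1 : ((tS 𝒜 S a).coeff 0 : A) = 0 := by
      rw [tS_coeff, tau_coeff]
      have h2 := congrArg (fun x : 𝒜 0 => (x : A)) ha
      exact h2
    have h2 : (tS 𝒜 S a).coeff 0 = 0 := Subtype.ext h1
    show constantCoeff (Polynomial.map (φ i) (tS 𝒜 S a)) = 0
    rw [constantCoeff_apply, coeff_map, h2, map_zero]
  · intro l hl h
    have h1 : ∀ a ∈ l, ∀ i, φ i ⟨a.1, HS_le 𝒜 S a.2⟩ = 0 := by
      intro a ha i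
      have h2 : Polynomial.map (φ i) (tS 𝒜 S a) = 0 := h a ha i
      have h3 : (⟨a.1, HS_le 𝒜 S a.2⟩ : S) = ∑ n ∈ (tau 𝒜 a.1).support, (tS 𝒜 S a).coeff n := by
        apply Subtype.ext
        rw [AddSubmonoidClass.coe_finsetSum]
        simp only [tS_coeff]
        exact (sum_coeff 𝒜 a.1).symm
      rw [h3, map_sum]
      refine Finset.sum_eq_zero fun n _ => ?_
      rw [← coeff_map, h2, coeff_zero]
    have h2 := hm (l.map (Subring.inclusion (HS_le 𝒜 S))) (by rw [List.length_map, hl]) (by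
      intro a ha i
      obtain ⟨b, hb, rfl⟩ := List.mem_map.1 ha
      exact h1 b hb i)
    rw [← map_list_prod] at h2
    exact Subring.inclusion_injective (HS_le 𝒜 S) (h2.trans (map_zero _).symm)

/-- **noncommutative graded rings** -/
theorem graded (hC : ClosedE C) (hF : FbC C) (hS : Sol C) (hA : LDF A) {H : Type} [Group H]
    (ρ : H →* GL (Fin 2) (𝒜 0)) (hH : C H) : C (FPn (GradedRing.projZeroRingHom' 𝒜) ρ) := by
  classical
  refine loc hC _ ρ fun F => ?_
  obtain ⟨S, hS', hD⟩ := hA (F.biUnion fun a => (tau 𝒜 a).support.image fun n => (tau 𝒜 a).coeff n)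
  refine ⟨HS 𝒜 S, inferInstance, (HS 𝒜 S).subtype, Subtype.val_injective, fun a ha => ?_,
    fib_HS 𝒜 hC hF hS ρ hH S hD⟩
  refine ⟨⟨a, fun n => ?_⟩, rfl⟩
  by_cases h : (tau 𝒜 a).coeff n = 0
  · rw [h]
    exact S.zero_mem
  · exact hS' _ (Finset.mem_biUnion.2 ⟨a, ha, Finset.mem_image.2 ⟨n, mem_support_iff.2 h, rfl⟩⟩)

/-- the inclusion of the ring of the elements of degree `0` -/
def inc0 : 𝒜 0 →+* A where
  toFun a := a
  map_one' := rfl
  map_mul' _ _ := rfl
  map_zero' := rfl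
  map_add' _ _ := rfl

theorem graded_iff (hC : ClosedE C) (hF : FbC C) (hS : Sol C) (hA : LDF A) {H : Type} [Group H]
    (ρ : H →* GL (Fin 2) (𝒜 0)) : C H ↔ C (FPn (GradedRing.projZeroRingHom' 𝒜) ρ) :=
  ⟨fun h => graded 𝒜 hC hF hS hA ρ h,
    of_FPn hC _ (inc0 𝒜) (fun r => GradedRing.projZeroRingHom'_apply_coe 𝒜 r) ρ⟩

theorem graded_gl (hC : ClosedE C) (hF : FbC C) (hS : Sol C) (hA : LDF A) :
    C (GL (Fin 2) (𝒜 0)) ↔ C (GL (Fin 2) A) :=
  ⟨fun h => gl_of hC _ (graded 𝒜 hC hF hS hA (MonoidHom.id _) h),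
    fun h => hC.base.of_injective _ _ (cmat (inc0 𝒜)) (cmat_inj Subtype.val_injective) h⟩

end graded

end Pool.Agent.H86.FJN
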