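import Pool.Agent.H86.FJN.Gr2

/-!
# Free rings
-/

set_option autoImplicit false

namespace Pool.Agent.H86.FJN

open Pool.Agent.Y110.FJ (ClosedE)
open Pool.Agent.H694.TR (Sol)
open Pool.Agent.R684.FP (FbC)
open Pool.Agent.H86.BC2
open Q30.FJ (cmat cmat_apply)
open Matrix MonoidAlgebra

variable {C : ∀ (G : Type) [Group G], Prop}

/-- the homomorphism `A⟨X⟩ → A` which maps the variables to `1` -/
noncomputable def aug1 (A X : Type) [Ring A] : MonoidAlgebra A (FreeMonoid X) →+* A :=
  MonoidAlgebra.liftNCRingHom (RingHom.id A) (1 : FreeMonoid X →* A)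
    fun _ _ => Commute.one_right _

theorem aug1_single {A X : Type} [Ring A] (w : FreeMonoid X) (a : A) :
    aug1 A X (single w a) = a := by
  unfold aug1
  rw [MonoidAlgebra.liftNCRingHom_single]
  show a * 1 = a
  rw [mul_one]

theorem aug1_map {A B X : Type} [Ring A] [Ring B] (f : A →+* B)
    (r : MonoidAlgebra A (FreeMonoid X)) :
    aug1 B X (mapRingHom (FreeMonoid X) f r) = f (aug1 A X r) := by
  induction r using MonoidAlgebra.induction_linear with
  | zero => simp
  | add x y hx hy => rw [map_add, map_add, hx, hy, map_add, map_add]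
  | single w a => rw [mapRingHom_single, aug1_single, aug1_single]

theorem map_inj {A B X : Type} [Ring A] [Ring B] (f : A →+* B) (hf : Function.Injective f) :
    Function.Injective (mapRingHom (FreeMonoid X) f) := by
  intro r s h
  apply MonoidAlgebra.coeff_injective
  ext w
  apply hf
  rw [← coeff_mapRingHom, ← coeff_mapRingHom, h]

theorem mem_map_range {A X : Type} [Ring A] (S : Subring A) (r : MonoidAlgebra A (FreeMonoid X))
    (h : ∀ w, r.coeff w ∈ S) : r ∈ (mapRingHom (FreeMonoid X) S.subtype).range := by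
  rw [← MonoidAlgebra.sum_coeff_single r]
  refine Subring.sum_mem _ fun w _ => ?_
  exact ⟨single w ⟨r.coeff w, h w⟩, mapRingHom_single _ _ _⟩

/-- products of elements with coefficients in an ideal -/
theorem prod_coeff {S X : Type} [Ring S] (I : Set S) (l : List (MonoidAlgebra S (FreeMonoid X)))
    (h : ∀ r ∈ l, ∀ w, r.coeff w ∈ I) (w : FreeMonoid X) : l.prod.coeff w ∈ LL I l.length := by
  classical
  induction l generalizing w with
  | nil =>
    rw [List.prod_nil, MonoidAlgebra.one_def, MonoidAlgebra.coeff_single, Finsupp.single_apply]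
    split_ifs
    · exact AddSubgroup.subset_closure ⟨[], rfl, by simp, rfl⟩
    · exact AddSubgroup.zero_mem _
  | cons r l ih =>
    rw [List.prod_cons, List.length_cons]
    have ih' := ih fun s hs => h s (List.mem_cons_of_mem _ hs)
    have hr : ∀ w, r.coeff w ∈ LL I 1 := fun w => AddSubgroup.subset_closure
      ⟨[r.coeff w], rfl, by
        intro a ha
        rw [List.mem_singleton.1 ha]
        exact h r (List.mem_cons_self ..) w, List.prod_singleton⟩
    rw [MonoidAlgebra.coeff_mul, add_comm]
    refine AddSubgroup.sum_mem _ fun a _ => AddSubgroup.sum_mem _ fun b _ => ?_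
    dsimp only
    split_ifs
    · exact LL_mul I (hr a) (ih' b)
    · exact AddSubgroup.zero_mem _

theorem fib_free (hC : ClosedE C) (hF : FbC C) (hS : Sol C) {A X H : Type} [Ring A] [Group H]
    (ρ : H →* GL (Fin 2) A) (hH : C H) (S : Subring A) (hD : DF S) :
    C (FPn ((aug1 A X).comp (mapRingHom (FreeMonoid X) S.subtype)) ρ) := by
  obtain ⟨ι, hι, D, hD, φ, m, hm⟩ := hD
  refine fib (k := D) (R := fun i => FA (D i) X) (S := D) hC hF hS
    (c := fun i => (MonoidAlgebra.singleOneRingHom : D i →+* FA (D i) X)) (d := fun i => fdeg)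
    (fun i => dg) (fun i => cohn)
    (fun i => aug1 (D i) X) ((aug1 A X).comp (mapRingHom (FreeMonoid X) S.subtype)) ρ
    (fun i => mapRingHom (FreeMonoid X) (φ i)) ?_ (m := m) ?_ hH
  · intro i r hr
    rw [aug1_map]
    have h1 : S.subtype (aug1 S X r) = 0 := by
      rw [← aug1_map]
      exact hr
    have h2 : aug1 S X r = 0 := Subtype.ext h1
    rw [h2, map_zero]
  · intro l hl h
    apply MonoidAlgebra.coeff_injective
    ext w
    have h1 := prod_coeff {a : S | ∀ i, φ i a = 0} l (fun r hr w i => by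
      rw [← coeff_mapRingHom, h r hr i]
      rfl) w
    have h2 : LL {a : S | ∀ i, φ i a = 0} l.length = ⊥ := LL_bot (m := m) _ hm hl.ge
    rw [h2, AddSubgroup.mem_bot] at h1
    rw [h1]
    rfl

/-- **free rings** -/
theorem free (hC : ClosedE C) (hF : FbC C) (hS : Sol C) {A : Type} [Ring A] (hA : LDF A)
    (X : Type) {H : Type} [Group H] (ρ : H →* GL (Fin 2) A) (hH : C H) :
    C (FPn (aug1 A X) ρ) := by
  classical
  refine loc hC _ ρ fun F => ?_
  obtain ⟨S, hS', hD⟩ := hA (F.biUnion fun a => a.coeff.support.image fun n => a.coeff n)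
  refine ⟨MonoidAlgebra S (FreeMonoid X), inferInstance, mapRingHom (FreeMonoid X) S.subtype,
    map_inj _ Subtype.val_injective, fun a ha => mem_map_range S a fun n => ?_,
    fib_free hC hF hS ρ hH S hD⟩
  by_cases h : a.coeff n = 0
  · rw [h]
    exact S.zero_mem
  · exact hS' _ (Finset.mem_biUnion.2 ⟨a, ha, Finset.mem_image.2 ⟨n, Finsupp.mem_support_iff.2 h,
      rfl⟩⟩)

theorem free_iff (hC : ClosedE C) (hF : FbC C) (hS : Sol C) {A : Type} [Ring A] (hA : LDF A)
    (X : Type) {H : Type} [Group H] (ρ : H →* GL (Fin 2) A) : C H ↔ C (FPn (aug1 A X) ρ) :=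
  ⟨free hC hF hS hA X ρ, of_FPn hC _ MonoidAlgebra.singleOneRingHom
    (fun r => aug1_single 1 r) ρ⟩

theorem free_gl (hC : ClosedE C) (hF : FbC C) (hS : Sol C) {A : Type} [Ring A] (hA : LDF A)
    (X : Type) : C (GL (Fin 2) A) ↔ C (GL (Fin 2) (MonoidAlgebra A (FreeMonoid X))) :=
  ⟨fun h => gl_of hC _ (free hC hF hS hA X (MonoidHom.id _) h),
    fun h => hC.base.of_injective _ _ (cmat MonoidAlgebra.singleOneRingHom)
      (cmat_inj fun a b hab => by
        have h1 := congrArg (aug1 A X) hab
        rw [show (MonoidAlgebra.singleOneRingHom a : MonoidAlgebra A (FreeMonoid X)) = single 1 a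
          from rfl, show (MonoidAlgebra.singleOneRingHom b : MonoidAlgebra A (FreeMonoid X)) =
          single 1 b from rfl, aug1_single, aug1_single] at h1
        exact h1) h⟩

end Pool.Agent.H86.FJN
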