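import Pool.Agent.H86.FJN.Fam
import Pool.Graph.R_pool_sql_team_seeded_35f281b4.K7.H87.FJ2.Main

/-!
# Noncommutative graded rings and free rings
-/

set_option autoImplicit false

namespace Pool.Agent.H86.FJN

open Pool.Agent.Y110.FJ (ClosedE)
open Pool.Agent.H694.TR (Sol act_tree TreeAct)
open Pool.Agent.R684.FP (FbC)
open Pool.Agent.H86.BC2
open Q30.FJ (cmat cmat_apply upper el el_val el_add poly_div)
open Matrix Polynomial

/-! ### polynomial rings over division rings -/

theorem dgPoly (D : Type) [DivisionRing D] : Dg (C : D →+* D[X]) natDegree where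
  const a := natDegree_C a
  mem r hr := ⟨r.coeff 0, (eq_C_of_natDegree_eq_zero hr).symm⟩
  add := natDegree_add_le
  mul _ _ hr hs := natDegree_mul hr hs

theorem genPoly (D : Type) [DivisionRing D] : Gen (C : D →+* D[X]) = ⊤ := by
  refine gen_top (dgPoly D) ?_
  intro a b x y hx ha hb hab
  have hb0 : b ≠ 0 := by
    rintro rfl
    rw [zero_mul] at hab
    rcases mul_eq_zero.1 hab with h | h
    · rw [h, natDegree_zero] at ha
      exact absurd ha (lt_irrefl _)
    · exact hx h
  obtain ⟨q, hq | hq⟩ := poly_div a b hb0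
  · refine ⟨q, ?_⟩
    rw [hq, natDegree_zero]
    exact ha
  · exact ⟨q, lt_of_lt_of_le hq hb⟩

/-! ### fibre products -/

/-- the group of the pairs `(g, h)` such that `g` is mapped to `ρ h` by the ring homomorphism `π` -/
def FPn {A R H : Type} [Ring A] [Ring R] [Group H] (π : A →+* R) (ρ : H →* GL (Fin 2) R) :
    Subgroup (GL (Fin 2) A × H) :=
  MonoidHom.eqLocus ((cmat π).comp (MonoidHom.fst _ _)) (ρ.comp (MonoidHom.snd _ _))

theorem mem_FPn {A R H : Type} [Ring A] [Ring R] [Group H] {π : A →+* R}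
    {ρ : H →* GL (Fin 2) R} {p : GL (Fin 2) A × H} : p ∈ FPn π ρ ↔ cmat π p.1 = ρ p.2 := Iff.rfl

variable {C : ∀ (G : Type) [Group G], Prop}

theorem fib (hC : ClosedE C) (hF : FbC C) (hS : Sol C) {ι : Type} [Finite ι] {k R S : ι → Type}
    [∀ i, DivisionRing (k i)] [∀ i, Ring (R i)] [∀ i, Nontrivial (R i)] [∀ i, NoZeroDivisors (R i)]
    [∀ i, Ring (S i)] [∀ i, Nontrivial (S i)] {c : ∀ i, k i →+* R i} {d : ∀ i, R i → ℕ}
    (D : ∀ i, Dg (c i) (d i)) (hG : ∀ i, Gen (c i) = ⊤) (ε : ∀ i, R i →+* S i)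
    {A A₀ H : Type} [Ring A] [Ring A₀] [Group H] (π : A →+* A₀) (ρ : H →* GL (Fin 2) A₀)
    (τ : ∀ i, A →+* R i) (hτ : ∀ i a, π a = 0 → ε i (τ i a) = 0) {m : ℕ}
    (hm : ∀ l : List A, l.length = m → (∀ a ∈ l, ∀ i, τ i a = 0) → l.prod = 0) (hH : C H) :
    C (FPn π ρ) := by
  let p₁ : FPn π ρ →* GL (Fin 2) A := (MonoidHom.fst _ _).comp (FPn π ρ).subtype
  let p₂ : FPn π ρ →* H := (MonoidHom.snd _ _).comp (FPn π ρ).subtype
  let α : ∀ i, FPn π ρ →* GL (Fin 2) (R i) := fun i => (cmat (τ i)).comp p₁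
  refine fam hC hF hS D ε α (fun i g => by rw [hG i]; exact Subgroup.mem_top _) p₂ hH ?_ ?_
  · intro i p hp
    have h1 : cmat π p.1.1 = ρ p.1.2 := p.2
    have h2 : p.1.2 = 1 := hp
    rw [h2, map_one] at h1
    have h3 : ∀ x y, π (p.1.1.1 x y - (1 : Matrix (Fin 2) (Fin 2) A) x y) = 0 := by
      intro x y
      have h4 : (cmat π p.1.1).1 = 1 := by
        rw [h1]
        rfl
      have h5 : π (p.1.1.1 x y) = (1 : Matrix (Fin 2) (Fin 2) A₀) x y := congrFun (congrFun h4 x) y
      rw [map_sub, h5, Matrix.one_apply, Matrix.one_apply]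
      split_ifs
      · rw [map_one, sub_self]
      · rw [map_zero, sub_self]
    show cmat (ε i) (cmat (τ i) p.1.1) = 1
    apply Units.ext
    ext x y
    show ε i (τ i (p.1.1.1 x y)) = (1 : Matrix (Fin 2) (Fin 2) (S i)) x y
    have h4 := hτ i _ (h3 x y)
    rw [map_sub, map_sub, sub_eq_zero] at h4
    rw [h4, Matrix.one_apply, Matrix.one_apply]
    split_ifs
    · rw [map_one, map_one]
    · rw [map_zero, map_zero]
  · have hs := solv_nil {a : A | ∀ i, τ i a = 0}
      (fun a x hx => ⟨fun i => by rw [map_mul, hx i, mul_zero],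
        fun i => by rw [map_mul, hx i, zero_mul]⟩) hm ((NN α p₂ Set.univ).map p₁) (by
          rintro _ ⟨p, hp, rfl⟩ x y i
          have h1 : (cmat (τ i) (p₁ p)).1 = 1 := by
            have h2 : cmat (τ i) (p₁ p) = 1 := hp.2 i (Set.mem_univ i)
            rw [h2]
            rfl
          have h2 : τ i ((p₁ p).1 x y) = (1 : Matrix (Fin 2) (Fin 2) (R i)) x y :=
            congrFun (congrFun h1 x) y
          rw [map_sub, h2, Matrix.one_apply, Matrix.one_apply]
          split_ifs
          · rw [map_one, sub_self]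
          · rw [map_zero, sub_self])
    refine Group.isSolvable_of_isSolvable_injective (f := (MonoidHom.mk' (fun p : NN α p₂ Set.univ =>
      (⟨p₁ p.1, ⟨p.1, p.2, rfl⟩⟩ : (NN α p₂ Set.univ).map p₁))
        fun _ _ => Subtype.ext (map_mul p₁ _ _))) ?_
    intro p q hpq
    have h1 : p₁ p.1 = p₁ q.1 := congrArg (fun z : (NN α p₂ Set.univ).map p₁ => z.1) hpq
    have h2 : p.1.1.2 = 1 := p.2.1
    have h3 : q.1.1.2 = 1 := q.2.1
    exact Subtype.ext (Subtype.ext (Prod.ext h1 (h2.trans h3.symm)))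

theorem of_FPn {A R H : Type} [Ring A] [Ring R] [Group H] (hC : ClosedE C)
    (π : A →+* R) (s : R →+* A) (hs : ∀ r, π (s r) = r) (ρ : H →* GL (Fin 2) R)
    (h : C (FPn π ρ)) : C H := by
  refine hC.base.of_injective _ _ ((((cmat s).comp ρ).prod
    (MonoidHom.id H)).codRestrict (FPn π ρ) ?_) ?_ h
  · intro x
    rw [mem_FPn]
    apply Units.ext
    ext i j
    exact hs _
  · intro x y hxy
    exact congrArg (fun q : FPn π ρ => q.1.2) hxy

/-- the group of all invertible matrices as a fibre product -/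
theorem gl_of {A R : Type} [Ring A] [Ring R] (hC : ClosedE C) (π : A →+* R)
    (h : C (FPn π (MonoidHom.id (GL (Fin 2) R)))) : C (GL (Fin 2) A) := by
  refine hC.base.of_injective _ _ (((MonoidHom.id (GL (Fin 2) A)).prod (cmat π)).codRestrict
    (FPn π (MonoidHom.id (GL (Fin 2) R))) fun g => rfl) ?_ h
  intro x y hxy
  exact congrArg (fun q : FPn π (MonoidHom.id (GL (Fin 2) R)) => q.1.1) hxy

/-! ### passage to subrings -/

theorem gl_range {A B : Type} [Ring A] [Ring B] {f : B →+* A} (hf : Function.Injective f)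
    (g : GL (Fin 2) A) (h1 : ∀ i j, g.1 i j ∈ f.range)
    (h2 : ∀ i j, (↑g⁻¹ : Matrix (Fin 2) (Fin 2) A) i j ∈ f.range) : g ∈ (cmat f).range := by
  choose a ha using h1
  choose b hb using h2
  have hm : Function.Injective (f.mapMatrix (m := Fin 2)) := by
    intro x y hxy
    ext i j
    exact hf (congrFun (congrFun hxy i) j)
  obtain ⟨M, hM⟩ : ∃ M : Matrix (Fin 2) (Fin 2) B, ∀ i j, M i j = a i j := ⟨fun i j => a i j,
    fun _ _ => rfl⟩
  obtain ⟨N, hN⟩ : ∃ N : Matrix (Fin 2) (Fin 2) B, ∀ i j, N i j = b i j := ⟨fun i j => b i j,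
    fun _ _ => rfl⟩
  have ha' : f.mapMatrix M = g.1 := by
    ext i j
    show f (M i j) = _
    rw [hM]
    exact ha i j
  have hb' : f.mapMatrix N = (↑g⁻¹ : Matrix (Fin 2) (Fin 2) A) := by
    ext i j
    show f (N i j) = _
    rw [hN]
    exact hb i j
  refine ⟨⟨M, N, hm ?_, hm ?_⟩, Units.ext ha'⟩
  · rw [map_mul, ha', hb', map_one, Units.mul_inv]
  · rw [map_mul, ha', hb', map_one, Units.inv_mul]

theorem loc (hC : ClosedE C) {A A₀ H : Type} [Ring A] [Ring A₀] [Group H] (π : A →+* A₀)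
    (ρ : H →* GL (Fin 2) A₀) (hl : ∀ F : Finset A, ∃ (B : Type) (_ : Ring B) (f : B →+* A),
      Function.Injective f ∧ (∀ a ∈ F, a ∈ f.range) ∧ C (FPn (π.comp f) ρ)) : C (FPn π ρ) := by
  classical
  refine Q30.FJ.of_fg hC.base (FPn π ρ) fun s => ?_
  let F : Finset A := s.biUnion fun p => (Finset.univ : Finset (Fin 2 × Fin 2)).biUnion fun x =>
    {p.1.1.1 x.1 x.2, (↑p.1.1⁻¹ : Matrix (Fin 2) (Fin 2) A) x.1 x.2}
  obtain ⟨B, _, f, hf, hF, hB⟩ := hl F
  let J : FPn (π.comp f) ρ →* FPn π ρ :=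
    (((cmat f).prodMap (MonoidHom.id H)).comp (FPn (π.comp f) ρ).subtype).codRestrict (FPn π ρ)
      fun p => p.2
  have hJ : Function.Injective J := by
    intro p q hpq
    have h1 : cmat f p.1.1 = cmat f q.1.1 := congrArg (fun z : FPn π ρ => z.1.1) hpq
    have h2 : p.1.2 = q.1.2 := congrArg (fun z : FPn π ρ => z.1.2) hpq
    exact Subtype.ext (Prod.ext (cmat_inj hf h1) h2)
  have hle : Subgroup.closure (s : Set (FPn π ρ)) ≤ J.range := by
    rw [Subgroup.closure_le]
    intro p hp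
    obtain ⟨g, hg⟩ := gl_range hf p.1.1 (fun i j => hF _ (Finset.mem_biUnion.2 ⟨p, hp,
      Finset.mem_biUnion.2 ⟨(i, j), Finset.mem_univ _, by simp⟩⟩))
      (fun i j => hF _ (Finset.mem_biUnion.2 ⟨p, hp,
      Finset.mem_biUnion.2 ⟨(i, j), Finset.mem_univ _, by simp⟩⟩))
    have h1 : cmat (π.comp f) g = ρ p.1.2 := by
      rw [← cmat_comp, hg]
      exact p.2
    exact ⟨⟨(g, p.1.2), h1⟩, Subtype.ext (Prod.ext hg rfl)⟩
  have h1 : C J.range := hC.base.of_injective _ _
    (MonoidHom.ofInjective hJ).symm.toMonoidHom (MonoidHom.ofInjective hJ).symm.injective hB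
  exact hC.base.of_injective _ _ (Subgroup.inclusion hle) (Subgroup.inclusion_injective hle) h1

/-- `A` has homomorphisms to finitely many division rings, and their common kernel is nilpotent -/
def DF (A : Type) [Ring A] : Prop :=
  ∃ (ι : Type) (_ : Finite ι) (D : ι → Type) (_ : ∀ i, DivisionRing (D i)) (φ : ∀ i, A →+* D i)
    (m : ℕ), ∀ l : List A, l.length = m → (∀ a ∈ l, ∀ i, φ i a = 0) → l.prod = 0

/-- every finite subset of `A` is contained in a subring which has homomorphisms to finitely many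
division rings with nilpotent common kernel -/
def LDF (A : Type) [Ring A] : Prop := ∀ F : Finset A, ∃ S : Subring A, (∀ a ∈ F, a ∈ S) ∧ DF S

theorem DF.sub {A B : Type} [Ring A] [Ring B] (f : B →+* A) (hf : Function.Injective f)
    (h : DF A) : DF B := by
  obtain ⟨ι, hι, D, hD, φ, m, hm⟩ := h
  refine ⟨ι, hι, D, hD, fun i => (φ i).comp f, m, fun l hl h => hf ?_⟩
  rw [map_list_prod, map_zero]
  refine hm (l.map f) (by rw [List.length_map, hl]) ?_
  intro a ha i
  obtain ⟨b, hb, rfl⟩ := List.mem_map.1 ha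
  exact h b hb i

theorem DF.ldf {A : Type} [Ring A] (h : DF A) : LDF A := fun _ =>
  ⟨⊤, fun _ _ => Subring.mem_top _, h.sub (⊤ : Subring A).subtype Subtype.val_injective⟩

/-- noetherian commutative rings -/
theorem df_noeth (A : Type) [CommRing A] [IsNoetherianRing A] : DF A := by
  have hfin : Finite (minimalPrimes A) := (minimalPrimes.finite_of_isNoetherianRing A).to_subtype
  have hdom : ∀ p : minimalPrimes A, IsDomain (A ⧸ p.1) := fun p =>
    (Ideal.Quotient.isDomain_iff_prime _).2 p.2.1.1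
  obtain ⟨m, hm⟩ := IsNoetherianRing.isNilpotent_nilradical A
  refine ⟨minimalPrimes A, hfin, fun p => FractionRing (A ⧸ p.1), fun p => inferInstance,
    fun p => (algebraMap (A ⧸ p.1) (FractionRing (A ⧸ p.1))).comp (Ideal.Quotient.mk p.1), m, ?_⟩
  intro l hl h
  have h1 : ∀ a ∈ l, a ∈ nilradical A := by
    intro a ha
    rw [nilradical, ← Ideal.sInf_minimalPrimes, Submodule.mem_sInf]
    intro p hp
    have h2 := h a ha ⟨p, hp⟩
    have h3 : Ideal.Quotient.mk p a = 0 :=
      IsFractionRing.injective (A ⧸ p) (FractionRing (A ⧸ p)) (h2.trans (map_zero _).symm)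
    exact Ideal.Quotient.eq_zero_iff_mem.1 h3
  have h2 : ∀ l : List A, (∀ a ∈ l, a ∈ nilradical A) → l.prod ∈ nilradical A ^ l.length := by
    intro l
    induction l with
    | nil => intro _; simp
    | cons a l ih =>
      intro h
      rw [List.prod_cons, List.length_cons, pow_succ']
      exact Ideal.mul_mem_mul (h a (List.mem_cons_self ..))
        (ih fun b hb => h b (List.mem_cons_of_mem _ hb))
  have h3 := h2 l h1
  rw [hl, hm] at h3
  exact h3

/-- commutative rings -/
theorem ldf_comm (A : Type) [CommRing A] : LDF A := by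
  intro F
  refine ⟨Subring.closure (F : Set A), fun a ha => Subring.subset_closure ha, ?_⟩
  have : IsNoetherianRing (Subring.closure (F : Set A)) :=
    is_noetherian_subring_closure (F : Set A) F.finite_toSet
  exact df_noeth _

end Pool.Agent.H86.FJN
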