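import Pool.Agent.H86.FJN.Gr3

/-!
# Matrices of degree two over noncommutative rings: the statements
-/

set_option autoImplicit false

namespace Pool.Agent.H86.FJN

open Pool.Agent.Y110.FJ (ClosedE)
open Pool.Agent.H694.TR (Sol)
open Pool.Agent.R684.FP (FbC)
open Pool.Agent.H86.BC2
open Q30.FJ (cmat)
open Matrix

/-- `GL₂(A)` is in the class -/
def InC (C : ∀ (G : Type) [Group G], Prop) (A : Type) [Ring A] : Prop := C (GL (Fin 2) A)

/-- the fibre products of `GL₂(A)` and `H` over `GL₂(R)` are in the class if and only if `H` is -/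
def FibIff (C : ∀ (G : Type) [Group G], Prop) {A R : Type} [Ring A] [Ring R] (π : A →+* R) : Prop :=
  ∀ (H : Type) [Group H] (ρ : H →* GL (Fin 2) R), C H ↔ C (FPn π ρ)

/-- graded rings, which need not be commutative -/
def GradedRings (C : ∀ (G : Type) [Group G], Prop) : Prop :=
  ∀ (A : Type) [Ring A] (𝒜 : ℕ → AddSubgroup A) [GradedRing 𝒜], LDF A →
    (InC C (𝒜 0) ↔ InC C A) ∧ FibIff C (GradedRing.projZeroRingHom' 𝒜)

/-- free rings -/
def FreeRings (C : ∀ (G : Type) [Group G], Prop) : Prop :=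
  ∀ (A X : Type) [Ring A], LDF A →
    (InC C A ↔ InC C (MonoidAlgebra A (FreeMonoid X))) ∧ FibIff C (aug1 A X)

/-- the ring homomorphism maps the matrix to the unit matrix -/
def Triv {R S : Type} [Ring R] [Ring S] (ε : R →+* S) (g : GL (Fin 2) R) : Prop := cmat ε g = 1

/-- the group `Gen` is in the class -/
def GenIn (C : ∀ (G : Type) [Group G], Prop) {k R : Type} [DivisionRing k] [Ring R] [Nontrivial R]
    [NoZeroDivisors R] (c : k →+* R) : Prop := C (Gen c)

/-- the homomorphisms are jointly injective -/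
def Jinj {G H K : Type} [Group G] [Group H] [Group K] (α : G →* K) (β : G →* H) : Prop :=
  ∀ g, α g = 1 → β g = 1 → g = 1

/-- `ε` is trivial on the image of the kernel of `β` -/
def KerTriv {R S G H : Type} [Ring R] [Ring S] [Group G] [Group H] (ε : R →+* S)
    (α : G →* GL (Fin 2) R) (β : G →* H) : Prop := ∀ g, β g = 1 → Triv ε (α g)

/-- groups with jointly injective homomorphisms to `Gen` and to a group in the class, such that `ε` is
trivial on the kernel of the second homomorphism -/
def JointIn (C : ∀ (G : Type) [Group G], Prop) {k R S : Type} [DivisionRing k] [Ring R]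
    [Nontrivial R] [NoZeroDivisors R] [Ring S] (c : k →+* R) (ε : R →+* S) : Prop :=
  ∀ (G H : Type) [Group G] [Group H] (α : G →* GL (Fin 2) R) (β : G →* H), α.range ≤ Gen c →
    Jinj α β → KerTriv ε α β → C H → C G

/-- domains with a degree function such that the elements of degree zero form a division ring -/
def DegreeRings (C : ∀ (G : Type) [Group G], Prop) : Prop :=
  ∀ (k R S : Type) [DivisionRing k] [Ring R] [Nontrivial R] [NoZeroDivisors R] [Ring S]
    [Nontrivial S] (c : k →+* R) (d : R → ℕ) (ε : R →+* S), Dg c d →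
    (InC C S → GenIn C c) ∧ JointIn C c ε

/-- rings with many homomorphisms to division rings -/
def ManyRings : Prop :=
  (∀ (A : Type) [CommRing A], LDF A) ∧ (∀ (A : Type) [DivisionRing A], LDF A) ∧
  (∀ (A B : Type) [Ring A] [Ring B], LDF A → LDF B → LDF (A × B)) ∧
  ∀ (A B : Type) [Ring A] [Ring B] (f : B →+* A), Function.Injective f → LDF A → LDF B

variable {C : ∀ (G : Type) [Group G], Prop}

theorem gradedRings (hC : ClosedE C) (hF : FbC C) (hS : Sol C) : GradedRings C :=
  fun _ _ 𝒜 _ hA => ⟨graded_gl 𝒜 hC hF hS hA, fun _ _ ρ => graded_iff 𝒜 hC hF hS hA ρ⟩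

theorem freeRings (hC : ClosedE C) (hF : FbC C) (hS : Sol C) : FreeRings C :=
  fun _ X _ hA => ⟨free_gl hC hF hS hA X, fun _ _ ρ => free_iff hC hF hS hA X ρ⟩

theorem degreeRings (hC : ClosedE C) (hF : FbC C) (hS : Sol C) : DegreeRings C := by
  intro k R S _ _ _ _ _ _ c d ε D
  refine ⟨fun hGL => ?_, fun G H _ _ α β hα hi he hH => ?_⟩
  · exact aug hC hF hS D ε (Gen c).subtype (fun g => g.2) ((cmat ε).comp (Gen c).subtype) hGL
      (fun g hg _ => Subtype.ext hg) (fun g hg => hg)
  · exact aug hC hF hS D ε α (fun g => hα ⟨g, rfl⟩) β hH hi he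

theorem df_div (A : Type) [DivisionRing A] : DF A := by
  refine ⟨Unit, inferInstance, fun _ => A, fun _ => inferInstance, fun _ => RingHom.id A, 1, ?_⟩
  intro l hl h
  obtain ⟨a, rfl⟩ := List.length_eq_one_iff.1 hl
  rw [List.prod_singleton]
  exact h a (List.mem_singleton_self a) ()

theorem zero_of_le {A : Type} [Ring A] {P : A → Prop} {m : ℕ}
    (h : ∀ l : List A, l.length = m → (∀ a ∈ l, P a) → l.prod = 0) (l : List A)
    (hl : m ≤ l.length) (hP : ∀ a ∈ l, P a) : l.prod = 0 := by
  rw [← List.take_append_drop m l, List.prod_append, h, zero_mul]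
  · rw [List.length_take]
    omega
  · exact fun a ha => hP a (List.mem_of_mem_take ha)

theorem df_prod {A B : Type} [Ring A] [Ring B] (hA : DF A) (hB : DF B) : DF (A × B) := by
  obtain ⟨ι, hι, D, hD, φ, m, hm⟩ := hA
  obtain ⟨κ, hκ, E, hE, ψ, n, hn⟩ := hB
  refine ⟨ι ⊕ κ, inferInstance, Sum.elim D E, fun i => match i with
    | Sum.inl i => hD i
    | Sum.inr i => hE i, fun i => match i with
    | Sum.inl i => (φ i).comp (RingHom.fst A B)
    | Sum.inr i => (ψ i).comp (RingHom.snd A B), m + n, ?_⟩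
  intro l hl h
  have h1 : (l.map Prod.fst).prod = 0 := by
    refine zero_of_le hm _ (by rw [List.length_map]; omega) ?_
    intro a ha i
    obtain ⟨x, hx, rfl⟩ := List.mem_map.1 ha
    exact h x hx (Sum.inl i)
  have h2 : (l.map Prod.snd).prod = 0 := by
    refine zero_of_le hn _ (by rw [List.length_map]; omega) ?_
    intro a ha i
    obtain ⟨x, hx, rfl⟩ := List.mem_map.1 ha
    exact h x hx (Sum.inr i)
  have h3 : l.prod.1 = (l.map Prod.fst).prod := map_list_prod (RingHom.fst A B) l
  have h4 : l.prod.2 = (l.map Prod.snd).prod := map_list_prod (RingHom.snd A B) l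
  exact Prod.ext (h3.trans h1) (h4.trans h2)

theorem ldf_prod {A B : Type} [Ring A] [Ring B] (hA : LDF A) (hB : LDF B) : LDF (A × B) := by
  classical
  intro F
  obtain ⟨S, hS, hDS⟩ := hA (F.image Prod.fst)
  obtain ⟨T, hT, hDT⟩ := hB (F.image Prod.snd)
  refine ⟨S.prod T, fun a ha => ⟨hS _ (Finset.mem_image_of_mem _ ha),
    hT _ (Finset.mem_image_of_mem _ ha)⟩, ?_⟩
  exact (df_prod hDS hDT).sub (Subring.prodEquiv S T).toRingHom (Subring.prodEquiv S T).injective

theorem ldf_sub {A B : Type} [Ring A] [Ring B] (f : B →+* A) (hf : Function.Injective f)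
    (hA : LDF A) : LDF B := by
  classical
  intro F
  obtain ⟨S, hS, hDS⟩ := hA (F.image f)
  refine ⟨S.comap f, fun a ha => hS _ (Finset.mem_image_of_mem _ ha), ?_⟩
  refine hDS.sub ((f.comp (S.comap f).subtype).codRestrict S fun x => x.2) ?_
  intro x y hxy
  exact Subtype.ext (hf (congrArg (fun z : S => (z : A)) hxy))

theorem manyRings : ManyRings :=
  ⟨fun A _ => ldf_comm A, fun A _ => (df_div A).ldf, fun _ _ _ _ hA hB => ldf_prod hA hB,
    fun _ _ _ _ f hf hA => ldf_sub f hf hA⟩

end Pool.Agent.H86.FJN
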